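import Mathlib

set_option autoImplicit false

namespace Pool.Agent.Results.MP_b7e006_co.Eight

open Finset

/-- `D` is a defensive alliance. -/
def Alliance {V : Type} [Fintype V] [DecidableEq V] (G : SimpleGraph V) [DecidableRel G.Adj]
    (D : Finset V) : Prop :=
  D.Nonempty ∧ ∀ v ∈ D, (G.neighborFinset v \ D).card ≤ (insert v (G.neighborFinset v) ∩ D).card

def E : List (Fin 8 × Fin 8) := [(0, 1), (1, 2), (0, 3), (1, 3), (2, 3), (0, 4), (3, 4), (0, 5), (3, 5),
  (0, 6), (1, 6), (3, 6), (4, 6), (5, 6), (0, 7), (1, 7), (3, 7), (4, 7), (5, 7), (6, 7)]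

def G : SimpleGraph (Fin 8) := SimpleGraph.fromRel fun a b => (a, b) ∈ E

instance : DecidableRel G.Adj := fun _ _ => inferInstanceAs (Decidable (_ ∧ _))

instance (D : Finset (Fin 8)) : Decidable (Alliance G D) := inferInstanceAs (Decidable (_ ∧ _))

theorem result : ∃ (V : Type) (_ : Fintype V) (_ : DecidableEq V) (G : SimpleGraph V)
    (_ : DecidableRel G.Adj) (v : V), G.Connected ∧ (∀ u, 2 ≤ G.degree u) ∧
    ∀ D : Finset V, Alliance G D → (∀ u ∈ D, ¬ Alliance G (D.erase u)) → v ∉ D :=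
  ⟨Fin 8, inferInstance, inferInstance, G, inferInstance, 2, by decide +kernel, by decide +kernel,
    by decide +kernel⟩

end Pool.Agent.Results.MP_b7e006_co.Eight
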